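import Pool.Agent.E8helper59.TS.Top
import Pool.Agent.E8helper42.TS.Cor
import Pool.Agent.E8helper40.TS.Step
import Pool.Agent.E8helper25.TS.Dir
import Pool.Agent.E8helper5.TS.Half
import Pool.Agent.E8helper44.TS.Slice
import Pool.Agent.E8helper74.TS.Cap
import Pool.Agent.E8helper63.TS.Fin2
import Pool.Agent.E8helper63.TS.Cnt2
import Pool.Agent.E8helper77.TS2.Red
import Pool.Agent.E8helper77.TS2.Cnt3
import Pool.Agent.E8helper32.TS.Cap2
import Pool.Agent.E8helper47.TS.Main2

/-!
# Totally separable translative packings of cylinders over planar convex bodies

The definitions used by the theorem (`Pool.Agent.E8helper59.TS.Stm`, `Stm2`):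

* `E m = (ℝ × ℝ) × (Fin m → ℝ)`, i.e. `ℝ^(m+2)`, with its Lebesgue measure and the maximum norm, so
  that `Metric.closedBall 0 R` is the cube `[-R, R]^(m+2)`.
* `Cyl m D = D × [0,1]^m`, the cylinder over `D ⊆ ℝ²`.
* `ACyl m D v L = v + L (Cyl m D)`, an affine image of the cylinder.
* `Ptope m P`: `P` is a parallelotope, i.e. the image of `[0,1]^(m+2)` under an invertible affine
  map.
* `TotSep K T`: for any two different `t, s ∈ T` there is a hyperplane that separates `t + K` from
  `s + K` and is disjoint from the interior of `r + K` for all `r ∈ T`, i.e. the translates `t + K`,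
  `t ∈ T`, form a totally separable packing.

The proof.  Let `B` be half of the difference body of the planar convex body `D` and let `A` be a
lower bound for the areas of the parallelograms circumscribed about `D`.  If a convex set `C` in the
plane is cut by a strip in the direction of which `B` has the width of the strip, then
`|C₁ + B| + |C₂ + B| + A ≤ |C + B| + |B|` for the two remaining parts `C₁`, `C₂`.  So `n` translates
of `D` that form a totally separable packing satisfy `n A + |B| ≤ |conv + B| + A`.  A totally
separable packing of a cylinder over `D` induces totally separable packings of `D` in the planes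
parallel to the base, also when the separating hyperplanes are not parallel to the axis, and the
numbers of their members are integrated over these planes.
-/

set_option autoImplicit false
open MeasureTheory Set Filter Topology
open scoped Pointwise ENNReal

namespace Pool.Agent.Results.MP_b907b5_co.CylindersH59

open Pool.Agent.E8helper59.TS

/-- **Theorem.** Let `D` be a convex body in the plane, `m ≥ 0`, and let `K ⊆ ℝ^(m+2)` be a compact
convex set that contains an affine image `v + L (D × [0,1]^m)` of the cylinder over `D` (for instance
`K` equal to this image), and let `P₀` be a parallelotope that contains `K` and has the smallest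
volume among all the parallelotopes that contain `v + L (D × [0,1]^m)`.  Then the upper density of
every totally separable packing of translates of `K` is at most `vol K / vol P₀`. -/
theorem result :
    ∀ (m : ℕ) (D : Set (ℝ × ℝ)) (v : E m) (L : E m ≃L[ℝ] E m) (K P₀ : Set (E m)),
      IsCompact D → Convex ℝ D → (interior D).Nonempty → IsCompact K → Convex ℝ K →
      ACyl m D v L ⊆ K → K ⊆ P₀ →
      Ptope m P₀ → (∀ P : Set (E m), Ptope m P → ACyl m D v L ⊆ P → volume P₀ ≤ volume P) →
      ∀ T : Set (E m), TotSep K T →
        limsup (fun R : ℝ =>
          (∑' t : {t : E m // t ∈ T ∧ (fun x => t + x) '' K ⊆ Metric.closedBall 0 R},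
            volume ((fun x => (t : E m) + x) '' K)) /
              volume (Metric.closedBall (0 : E m) R)) atTop ≤
          volume K / volume P₀ := by
  have hTop : S_TOP := t_TOP Pool.Agent.E8helper42.TS.t_COR
  have hDir : S_DIR := Pool.Agent.E8helper25.TS.t_DIR (Pool.Agent.E8helper40.TS.t_STEP hTop)
  have hCap2 : S_CAP2 := Pool.Agent.E8helper32.TS.t_CAP2 Pool.Agent.E8helper74.TS.t_CAP
  have hCnt2 : S_CNT2 := Pool.Agent.E8helper63.TS.t_CNT2 Pool.Agent.E8helper5.TS.t_HALF
    (Pool.Agent.E8helper63.TS.t_FIN2 hDir) Pool.Agent.E8helper44.TS.t_SLICE
  exact Pool.Agent.E8helper47.TS.t_MAIN2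
    (Pool.Agent.E8helper77.TS2.t_CNT3 hCnt2 Pool.Agent.E8helper77.TS2.t_RED hCap2) hCap2

end Pool.Agent.Results.MP_b907b5_co.CylindersH59
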