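import Pool.Agent.E8helper59.TS.Top
import Pool.Agent.E8helper42.TS.Cor
import Pool.Agent.E8helper40.TS.Step
import Pool.Agent.E8helper56.TS.Dia
import Pool.Agent.E8helper68.TS.Zon
import Pool.Agent.E8helper64.TS.Cell
import Pool.Agent.E8helper79.TS.Prd
import Pool.Agent.E8helper42.TS.Cntd
import Pool.Agent.E8helper83.TS.Jmax
import Pool.Agent.E8helper66.TS.Boxf
import Pool.Agent.E8helper9.TS.Avg
import Pool.Agent.E8helper70.TS.Main4
import Pool.Agent.E8helper59.TS.Span
import Pool.Agent.E8helper70.TS.Rank
import Pool.Agent.E8helper40.TS.Low

/-!
# Totally separable translative packings with at most `d + 2` directions of hyperplanes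

The definitions used by the theorem are in `Pool.Agent.E8helper59.TS.Gen`.  The space is
`Fin d → ℝ`, with the maximum norm and the Lebesgue measure.

* `Multiples f`: the multiples of the functionals `f i`, so the hyperplanes `g = c` with `g ≠ 0` in
  `Multiples f` have one of the normal directions given by the `f i`.
* `TotSepA Adm K T`: any two members of the family `t + K`, `t ∈ T`, are separated by a hyperplane
  `g = c` that is disjoint from the interior of every member, with `g` in `Adm`.
* `Smallest (Icc 0 1) K P₀`: `P₀` is a parallelotope (an image of `[0,1]^d` under an invertible affine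
  map) of smallest volume containing `K`.
* `density K T`: the upper density of the packing, over the cubes `[-R,R]^d`.

The proof.  Normalise the functionals to have width `1` on `K` and choose `d` of them with the
largest determinant; these give the coordinates.  The parallelotope around `K` with facets in these
directions has the volume `1`, say.  The coefficients and the `2 × 2` minors of the two further
functionals are at most `1` in absolute value.  In a cell (a box with the sides `ℓ j`, for the
reference points) of the hyperplanes of the `d` chosen directions the members are separated in the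
two further directions.  By the area inequality `S_STEP`, applied to the diamond
`B = {|x| + |y| ≤ 1/2}`, for `n` points of the plane separated by strips of width one parallel to the
axes, `n ≤ |conv + B| + 1/2`, and the area of the zonogon in question is computed.  So a cell
contains at most `1 + ∑ ℓ j + ∑ ℓ j ℓ k ≤ ∏ (1 + ℓ j)` members.  If the directions do not span the
space, the density is `0`.
-/

set_option autoImplicit false
open MeasureTheory Set Filter Topology
open scoped Pointwise ENNReal

namespace Pool.Agent.Results.MP_b907b5_co.DirectionsH59

open Pool.Agent.E8helper59.TS Pool.Agent.E8helper59.TSG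

/-- **Theorem.** Let `K` be a convex body in `ℝ^d`, let `P₀` be a parallelotope of smallest volume
that contains `K`, and let `f i`, `i < d + 2`, be linear functionals.  Consider a packing of translates of `K` in which any two members are separated by a hyperplane
that is disjoint from the interior of every member and is a level set of one of the `f i`.  Its upper
density is at most `vol K / vol P₀`. -/
theorem result (d : ℕ) (f : Fin (d + 2) → (Fin d → ℝ) →L[ℝ] ℝ) (K P₀ T : Set (Fin d → ℝ))
    (hK : IsCompact K) (hK1 : Convex ℝ K) (hK2 : (interior K).Nonempty)
    (hP : Smallest (Icc 0 1) K P₀) (hT : TotSepA (Multiples f) K T) :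
    density K T ≤ volume K / volume P₀ := by
  have hStep : S_STEP := Pool.Agent.E8helper40.TS.t_STEP (t_TOP Pool.Agent.E8helper42.TS.t_COR)
  have hCell : S_CELL := Pool.Agent.E8helper64.TS.t_CELL (Pool.Agent.E8helper56.TS.t_DIA hStep)
    Pool.Agent.E8helper68.TS.t_ZON
  have hM : S_MAIN4 := Pool.Agent.E8helper70.TS.t_MAIN4
    (Pool.Agent.E8helper66.TS.t_BOXF
      (Pool.Agent.E8helper42.TS.t_CNTD hCell Pool.Agent.E8helper79.TS.t_PRD)
      Pool.Agent.E8helper83.TS.t_JMAX)
    Pool.Agent.E8helper9.TS.t_AVG
  by_cases hf : ∀ x, (∀ i, f i x = 0) → x = 0
  · exact span_case hM d f K P₀ T hK hK1 hK2 hf hP hT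
  · push Not at hf
    obtain ⟨x, hx, hx0⟩ := hf
    exact Pool.Agent.E8helper40.TS.t_LOW Pool.Agent.E8helper70.TS.t_RANK
      Pool.Agent.E8helper9.TS.t_AVG d (d + 2) f K P₀ T hK hK1 hK2 ⟨x, hx0, hx⟩ hP hT

end Pool.Agent.Results.MP_b907b5_co.DirectionsH59
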