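import Pool.Agent.E8helper59.TS.Top
import Pool.Agent.E8helper42.TS.Cor
import Pool.Agent.E8helper40.TS.Step
import Pool.Agent.E8helper25.TS.Dir
import Pool.Agent.E8helper5.TS.Half
import Pool.Agent.E8helper88.TS.FIN
import Pool.Agent.E8helper42.TS.Prod
import Pool.Agent.E8helper91.TS.Plane
import Pool.Agent.E8helper15.TS.Line
import Pool.Agent.E8helper3.TS.Box
import Pool.Agent.E8helper54.TS.Volg
import Pool.Agent.E8helper9.TS.Avg
import Pool.Agent.E8helper93.TS.Main3
import Pool.Agent.E8helper59.TS.Gen

/-!
# Totally separable translative packings with hyperplanes parallel to all but one factor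

The definitions used by the theorem:

* `G k m = (Fin k → ℝ × ℝ) × (Fin m → ℝ)` (`Pool.Agent.E8helper59.TS.Stm3`), i.e. `ℝ^(2k+m)` as a
  product of `k` planes and `m` lines, with its Lebesgue measure and the maximum norm.
* `OneFactor Λ` (this and the following definitions are in `Pool.Agent.E8helper59.TS.Gen`): the
  functionals `f` such that `f x` depends only on the coordinate of `Λ x` in one of the factors.  The
  hyperplanes `f = c` are parallel to all the factors but one of the decomposition given by `Λ`.
* `TotSepA Adm K T`: any two members of the family `t + K`, `t ∈ T`, are separated by a hyperplane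
  `f = c` that is disjoint from the interior of every member, with `f` in `Adm`.
* `Smallest (Icc 0 1) K P₀`: `P₀` is a parallelotope (an affine image of `[0,1]^(2k+m)`) of smallest
  volume containing `K`.
* `density K T`: the upper density of the packing, over the cubes `[-R,R]^(2k+m)`.
-/

set_option autoImplicit false
open MeasureTheory Set Filter Topology
open scoped Pointwise ENNReal

namespace Pool.Agent.Results.MP_b907b5_co.FactorDirectionsH59

open Pool.Agent.E8helper59.TS Pool.Agent.E8helper59.TSG

/-- an invertible linear map, i.e. a decomposition of the space into `k` planes and `m` lines -/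
abbrev Dec (k m : ℕ) : Type := G k m ≃L[ℝ] G k m

/-- `P₀` is a parallelotope of smallest volume that contains `K` -/
def SmallestPar (k m : ℕ) (K P₀ : Set (G k m)) : Prop := Smallest (Icc 0 1) K P₀

/-- the functionals that depend on one factor of the decomposition only -/
def Adm (k m : ℕ) (Λ : Dec k m) : Set (G k m →L[ℝ] ℝ) := OneFactor Λ

/-- total separability by hyperplanes that are parallel to all the factors but one -/
def TotSepDec (k m : ℕ) (Λ : Dec k m) (K T : Set (G k m)) : Prop := TotSepA (Adm k m Λ) K T

/-- the upper density -/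
noncomputable def upperDensity (k m : ℕ) (K T : Set (G k m)) : ℝ≥0∞ := density K T

/-- **Theorem.** Let `K` be a convex body in `ℝ^(2k+m)`, let `P₀` be a parallelotope of smallest
volume that contains `K`, and let the space be decomposed (by an arbitrary invertible linear map `Λ`)
into `k` planes and `m` lines.  Consider a packing of translates of `K` in which any two members are
separated by a hyperplane that is disjoint from the interior of every member and parallel to all but
one of the factors.  Its upper density is at most `vol K / vol P₀`. -/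
theorem result (k m : ℕ) (Λ : Dec k m) (K P₀ T : Set (G k m)) (hK : IsCompact K)
    (hK1 : Convex ℝ K) (hK2 : (interior K).Nonempty) (hP : SmallestPar k m K P₀)
    (hT : TotSepDec k m Λ K T) : upperDensity k m K T ≤ volume K / volume P₀ := by
  have hT' : TotSepS k m Λ K T := by
    intro t ht s hs hne
    obtain ⟨f, c, hf, hA, h1, h2, h3⟩ := hT t ht s hs hne
    refine ⟨f, c, hf, ⟨f.comp (Λ.symm : G k m →L[ℝ] G k m), ?_, fun x => by simp⟩, h1, h2, h3⟩
    rcases hA with ⟨i, u, hu⟩ | ⟨j, a, ha⟩
    · exact Or.inl ⟨i, u, fun x => by simp [hu]⟩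
    · exact Or.inr ⟨j, a, fun x => by simp [ha]⟩
  have hTop : S_TOP := t_TOP Pool.Agent.E8helper42.TS.t_COR
  have hDir : S_DIR := Pool.Agent.E8helper25.TS.t_DIR (Pool.Agent.E8helper40.TS.t_STEP hTop)
  have hPlane : S_PLANE := Pool.Agent.E8helper91.TS.t_PLANE Pool.Agent.E8helper5.TS.t_HALF
    (Pool.Agent.E8helper88.TS.t_FIN hDir)
  exact Pool.Agent.E8helper93.TS.t_MAIN3
    (Pool.Agent.E8helper3.TS.t_BOX Pool.Agent.E8helper42.TS.t_PROD hPlane
      Pool.Agent.E8helper15.TS.t_LINE)
    Pool.Agent.E8helper54.TS.t_VOLG Pool.Agent.E8helper9.TS.t_AVG k m Λ K P₀ hK hK1 hK2 hP.1 hP.2.1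
    hP.2.2 T hT'

end Pool.Agent.Results.MP_b907b5_co.FactorDirectionsH59
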