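import Mathlib
import Pool.Agent.E8helper89.TSP.Per

set_option autoImplicit false

open MeasureTheory

namespace Pool.Agent.Results.MP_b907b5_co.PeriodicPackingsH89

open Pool.Agent.E8helper89.TSP

/-- Let `K` be a convex body in `ℝ^d`, `Par v w` a parallelotope of smallest volume which contains `K`,
and let the translates of `K` by `x + L` and `y + L`, `L` the lattice with basis `b`, form a totally
separable packing. Then its upper density is at most `vol K / vol (Par v w)`. -/
theorem result (d : ℕ) (K : Set (EuclideanSpace ℝ (Fin d))) (hK : IsCompact K)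
    (hconv : Convex ℝ K) (hint : (interior K).Nonempty) (v : EuclideanSpace ℝ (Fin d))
    (w : Fin d → EuclideanSpace ℝ (Fin d)) (hs : IsSmallest K v w)
    (x y : EuclideanSpace ℝ (Fin d)) (b : Fin d → EuclideanSpace ℝ (Fin d))
    (hb : LinearIndependent ℝ b)
    (hT : TotallySeparable Set.univ (LatticeSet x b ∪ LatticeSet y b) K) :
    upperDensity (LatticeSet x b ∪ LatticeSet y b) K ≤ volume K / volume (Par v w) :=
  le_smallest hs (bound_per hK hconv hint x y b hb hT)

end Pool.Agent.Results.MP_b907b5_co.PeriodicPackingsH89
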